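import Pool.Agent.Y152.AS.Defs
import Pool.Agent.V1157.RC.Defs

/-!
# Bloch's conjecture for self-correspondences of surfaces and its special cases: definitions
-/

open CategoryTheory AlgebraicGeometry

universe u v w

namespace Pool.Agent.V1151.BC

open Pool.Agent.H914 Pool.Agent.H914.VarClass Pool.Agent.H914.VarClass.Obj Pool.Agent.W492.BB
  Pool.Agent.W550.Corr Pool.Agent.TH133 Pool.Agent.Y152.AS

variable {k : Type u} [Field k] {𝒱 : VarClass k} {C : TheoryData.{u, v, 0} 𝒱 ℚ}
  {K : Type w} [Field K] (H : WeilTheoryData.{u, v, w} C K)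

/-- Bloch's conjecture: for every surface `X`, every self-correspondence in `CH^2(X × X)` which is
homologically equivalent to a degenerate one acts as zero on the Albanese kernel of `X`. -/
def Bloch : Prop :=
  ∀ (X : 𝒱.Obj) (Z : C.A (X.prod X)), X.dim = 2 → C.Deg 2 Z → IsHomDegenerate H Z →
    ∀ α : C.A X, InAlbKer C α → C.act Z α = 0

/-- For every surface `X`, the homologically trivial self-correspondences `W` of `X` with the
property `P` act as zero on the Albanese kernel of `X`. -/
def HomFor (P : ∀ X : 𝒱.Obj, C.A (X.prod X) → Prop) : Prop :=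
  ∀ (X : 𝒱.Obj) (W : C.A (X.prod X)), X.dim = 2 → C.Deg 2 W → H.cl W = 0 → P X W →
    ∀ α : C.A X, InAlbKer C α → C.act W α = 0

/-- `HomFor` for the correspondences `W` with `W ∘ W = 0`. -/
def HomSqZero : Prop := HomFor H fun _ W => C.comp W W = 0

/-- `HomFor` for the symmetric correspondences, `ᵗW = W`. -/
def HomSymmetric : Prop := HomFor H fun _ W => tp C W = W

/-- `HomFor` for the antisymmetric correspondences, `ᵗW = -W`. -/
def HomAntisymmetric : Prop := HomFor H fun _ W => tp C W = -W

variable (C) in
/-- `g` is an automorphism, with inverse `g'`, of the Chow motive of `X`. -/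
structure IsAut {X : 𝒱.Obj} (g g' : C.A (X.prod X)) : Prop where
  deg : C.Deg 2 g
  deg' : C.Deg 2 g'
  comp_inv : C.comp g g' = dg C X
  inv_comp : C.comp g' g = dg C X

/-- If an automorphism `g` of the Chow motive of a surface `X` is homologically equivalent to the
identity, then its orbits on the Albanese kernel of `X` are finite: `g ^ n` fixes `α`, for some
`n > 0` which may depend on `α`. -/
def AutOrbits : Prop :=
  ∀ (X : 𝒱.Obj) (g g' : C.A (X.prod X)), X.dim = 2 → IsAut C g g' → H.cl g = H.cl (dg C X) →
    ∀ α : C.A X, InAlbKer C α → ∃ n : ℕ, 0 < n ∧ (C.act g)^[n] α = α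

/-- The self-correspondences `Z`, `Z'` of `X` commute on the Albanese kernel of `X`. -/
def CommuteOn {X : 𝒱.Obj} (Z Z' : C.A (X.prod X)) : Prop :=
  ∀ α : C.A X, InAlbKer C α → C.act Z (C.act Z' α) = C.act Z' (C.act Z α)

/-- For every surface `X`, homologically equivalent idempotents `e`, `f` in `CH^2(X × X)` commute
on the Albanese kernel of `X`. -/
def IdemCommute : Prop :=
  ∀ (X : 𝒱.Obj) (e f : C.A (X.prod X)), X.dim = 2 → C.Deg 2 e → C.Deg 2 f →
    C.comp e e = e → C.comp f f = f → H.cl e = H.cl f → CommuteOn e f

/-- For every surface `X`, every idempotent `e` in `CH^2(X × X)` commutes on the Albanese kernel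
of `X` with its conjugates `g e g'` with the automorphisms `g` (with inverse `g'`) of the Chow
motive of `X` which are homologically equivalent to the identity. -/
def ConjCommute : Prop :=
  ∀ (X : 𝒱.Obj) (e g g' : C.A (X.prod X)), X.dim = 2 → C.Deg 2 e → C.comp e e = e →
    IsAut C g g' → H.cl g = H.cl (dg C X) → CommuteOn e (C.comp g (C.comp e g'))

/-- For every surface `X`, homologically equivalent involutions `s`, `t` of the Chow motive of `X`
commute on the Albanese kernel of `X`. -/
def InvolCommute : Prop :=
  ∀ (X : 𝒱.Obj) (s t : C.A (X.prod X)), X.dim = 2 → IsAut C s s → IsAut C t t →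
    H.cl s = H.cl t → CommuteOn s t

end Pool.Agent.V1151.BC
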