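import Pool.Agent.V1151.BC.Defs
import Pool.Agent.V1157.RC.Surf

/-!
# Bloch's conjecture for self-correspondences of surfaces: finite orbits and commutation suffice
-/

open CategoryTheory AlgebraicGeometry

universe u v w

namespace Pool.Agent.V1151.BC

open Pool.Agent.H914 Pool.Agent.H914.VarClass Pool.Agent.H914.VarClass.Obj Pool.Agent.W492.BB
  Pool.Agent.W550.Corr Pool.Agent.TH133 Pool.Agent.Y148.BB Pool.Agent.Y152.AS
  Pool.Agent.V1157.RC

set_option linter.unusedSectionVars false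

variable {k : Type u} [Field k] {𝒱 : VarClass k} {C : TheoryData.{u, v, 0} 𝒱 ℚ}
  [hC : IsChowProj C] {K : Type w} [Field K] {H : WeilTheoryData.{u, v, w} C K}
  [hH : IsWeilProj H] {S T V X : 𝒱.Obj}

lemma dg_mem2 (hX : X.dim = 2) : dg C X ∈ C.gr (X.prod X) 2 :=
  gr_congr (by rw [hX]; norm_num) (dg_mem C X)

/-- homologically trivial correspondences -/
lemma kills (h : Bloch H) (hX : X.dim = 2) {W : C.A (X.prod X)} (hW : W ∈ C.gr (X.prod X) 2)
    (h0 : H.cl W = 0) {α : C.A X} (hα : InAlbKer C α) : C.act W α = 0 :=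
  h X W hX hW ⟨0, .zero, by rw [h0, map_zero]⟩ α hα

lemma same (h : Bloch H) (hX : X.dim = 2) {Z Z' : C.A (X.prod X)} (hZ : Z ∈ C.gr (X.prod X) 2)
    (hZ' : Z' ∈ C.gr (X.prod X) 2) (h0 : H.cl Z = H.cl Z') {α : C.A X} (hα : InAlbKer C α) :
    C.act Z α = C.act Z' α := by
  have h1 := kills h hX (Submodule.sub_mem _ hZ hZ') (by rw [map_sub, h0, sub_self]) hα
  rwa [C.act_sub, sub_eq_zero] at h1

lemma act_inAlbKer (hX : X.dim = 2) {Z : C.A (X.prod X)} (hZ : Z ∈ C.gr (X.prod X) 2)
    {α : C.A X} (hα : InAlbKer C α) : InAlbKer C (C.act Z α) :=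
  inAlbKer_iff.2 (act_albKer hX hX hZ (inAlbKer_iff.1 hα))

lemma commute_of_bloch (h : Bloch H) (hX : X.dim = 2) {Z Z' : C.A (X.prod X)}
    (hZ : Z ∈ C.gr (X.prod X) 2) (hZ' : Z' ∈ C.gr (X.prod X) 2) (h0 : H.cl Z = H.cl Z') :
    CommuteOn Z Z' := by
  intro α hα
  rw [← same h hX hZ hZ' h0 hα, ← same h hX hZ hZ' h0 (act_inAlbKer hX hZ hα)]

/-- the iterates of a square-zero unipotent correspondence -/
lemma act_iter {W : C.A (V.prod V)} (hW : C.comp W W = 0) (α : C.A V) (n : ℕ) :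
    (C.act (dg C V + W))^[n] α = α + (n : ℚ) • C.act W α := by
  have h0 : C.act W (C.act W α) = 0 := by
    rw [← C.act_comp, hW, C.act_zero]
  induction n with
  | zero => simp
  | succ n ih =>
    have h1 : C.act W (α + (n : ℚ) • C.act W α) = C.act W α := by
      rw [← actB_apply, map_add, map_smul, actB_apply, actB_apply, h0, smul_zero, add_zero]
    rw [Function.iterate_succ_apply', ih, C.act_add, act_dg, h1]
    push_cast
    module

lemma bloch_of_homConj (h : HomConj H) : Bloch H := fun X Z hX hZ hZd α hα =>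
  homConj_iff.1 h X X Z hX hX hZ hZd α hα

theorem main (H : WeilTheoryData.{u, v, w} C K) [hH : IsWeilProj H]
    (hI : ∀ S T : 𝒱.Obj, S.dim = 2 → T.dim = 2 → HasIntersection C 2 S T) :
    List.TFAE [Bloch H, HomSqZero H, HomSymmetric H, HomAntisymmetric H,
      AutOrbits H, IdemCommute H, ConjCommute H, InvolCommute H] := by
  tfae_have 1 → 2 := fun h X W hX hW hW0 _ α hα => kills h hX hW hW0 hα
  tfae_have 1 → 3 := fun h X W hX hW hW0 _ α hα => kills h hX hW hW0 hα
  tfae_have 1 → 4 := fun h X W hX hW hW0 _ α hα => kills h hX hW hW0 hα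
  tfae_have 1 → 5 := by
    intro h X g g' hX hg hcl α hα
    refine ⟨1, one_pos, ?_⟩
    have h1 := same h hX hg.deg (dg_mem2 hX) hcl hα
    rw [act_dg] at h1
    exact h1
  tfae_have 1 → 6 := fun h X e f hX he hf _ _ hcl => commute_of_bloch h hX he hf hcl
  tfae_have 1 → 7 := by
    intro h X e g g' hX he hee hg hcl
    refine commute_of_bloch h hX he (comp_mem2 hX hX hg.deg (comp_mem2 hX hX he hg.deg')) ?_
    have h1 : H.cl (C.comp g g') = H.cl (dg C X) := by rw [hg.comp_inv]
    have h2 : H.cl g' = H.cl (dg C X) := by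
      rw [cl_comp, hcl, ← cl_comp, dg_comp] at h1
      exact h1
    rw [cl_comp, cl_comp, hcl, h2, ← cl_comp, ← cl_comp, dg_comp, comp_dg]
  tfae_have 1 → 8 := fun h X s t hX hs ht hcl => commute_of_bloch h hX hs.deg ht.deg hcl
  tfae_have 2 → 1 := by
    intro h
    refine bloch_of_homConj (homConj_of hI (fun _ => True)
      (fun _ _ _ _ _ _ _ _ _ _ => trivial) ?_)
    intro V W hV hW hW0 hWW _ α hα _
    exact h V W hV hW hW0 hWW α (inAlbKer_iff.2 hα)
  tfae_have 3 → 1 := by
    intro h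
    refine bloch_of_homConj (homConj_of hI (fun _ => True)
      (fun _ _ _ _ _ _ _ _ _ _ => trivial) ?_)
    intro V W hV hW hW0 hWW _ α hα ht
    have h1 := h V (W + tp C W) hV (Submodule.add_mem _ hW (tp_mem C hW))
      (by rw [map_add, cl_tp, hW0, tp_zero, add_zero])
      (show tp C (W + tp C W) = W + tp C W by rw [tp_add, tp_tp, add_comm]) α
      (inAlbKer_iff.2 hα)
    rwa [C.act_add, ht, add_zero] at h1
  tfae_have 4 → 1 := by
    intro h
    refine bloch_of_homConj (homConj_of hI (fun _ => True)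
      (fun _ _ _ _ _ _ _ _ _ _ => trivial) ?_)
    intro V W hV hW hW0 hWW _ α hα ht
    have h1 := h V (W - tp C W) hV (Submodule.sub_mem _ hW (tp_mem C hW))
      (by rw [map_sub, cl_tp, hW0, tp_zero, sub_zero])
      (show tp C (W - tp C W) = -(W - tp C W) by rw [tp_sub, tp_tp, neg_sub]) α
      (inAlbKer_iff.2 hα)
    rwa [C.act_sub, ht, sub_zero] at h1
  have haut : ∀ {V : 𝒱.Obj} {W : C.A (V.prod V)}, V.dim = 2 → W ∈ C.gr (V.prod V) 2 →
      C.comp W W = 0 → IsAut C (dg C V + W) (dg C V - W) := by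
    intro V W hV hW hWW
    obtain ⟨h1, h2⟩ := unit_add hWW
    exact ⟨Submodule.add_mem _ (dg_mem2 hV) hW, Submodule.sub_mem _ (dg_mem2 hV) hW, h1, h2⟩
  tfae_have 5 → 1 := by
    intro h
    refine bloch_of_homConj (homConj_of hI (fun _ => True)
      (fun _ _ _ _ _ _ _ _ _ _ => trivial) ?_)
    intro V W hV hW hW0 hWW _ α hα _
    obtain ⟨n, hn, h3⟩ := h V _ _ hV (haut hV hW hWW) (by rw [map_add, hW0, add_zero]) α
      (inAlbKer_iff.2 hα)
    rw [act_iter hWW, add_eq_left] at h3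
    exact (smul_eq_zero.1 h3).resolve_left (by exact_mod_cast hn.ne')
  -- an idempotent
  have hidem : ∀ {S T V : 𝒱.Obj} (p : V ⟶ S) (r : V ⟶ T) (a : C.A S) (b : C.A T) (m l : ℚ)
      (Z : C.A (S.prod T)), Cover C 2 p r a b m l → C.Deg 2 Z → H.cl Z = 0 →
      ∃ e : C.A (V.prod V), C.Deg 2 e ∧ C.comp e e = e ∧
        C.comp e (sqz C 2 p r a b m l Z) = sqz C 2 p r a b m l Z ∧
        C.comp (sqz C 2 p r a b m l Z) e = 0 := by
    intro S T V p r a b m l Z hc _ _
    exact ⟨idp C p l, hc.idp_mem, hc.idp_idem, hc.idp_sqz Z, hc.sqz_idp Z⟩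
  tfae_have 6 → 1 := by
    intro h
    refine bloch_of_homConj (homConj_of hI (fun {V} W => ∃ e : C.A (V.prod V), C.Deg 2 e ∧
      C.comp e e = e ∧ C.comp e W = W ∧ C.comp W e = 0) hidem ?_)
    intro V W hV hW hW0 hWW ⟨e, he, hee, heW, hWe⟩ α hα _
    have h3 := h V e (e + W) hV he (Submodule.add_mem _ he hW) hee
      (by rw [comp_add, add_comp, add_comp, hee, hWe, heW, hWW, add_zero, add_zero])
      (by rw [map_add, hW0, add_zero]) α (inAlbKer_iff.2 hα)
    rw [← C.act_comp, ← C.act_comp, add_comp, comp_add, hee, hWe, heW, add_zero, C.act_add,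
      left_eq_add] at h3
    exact h3
  tfae_have 7 → 1 := by
    intro h
    refine bloch_of_homConj (homConj_of hI (fun {V} W => ∃ e : C.A (V.prod V), C.Deg 2 e ∧
      C.comp e e = e ∧ C.comp e W = W ∧ C.comp W e = 0) hidem ?_)
    intro V W hV hW hW0 hWW ⟨e, he, hee, heW, hWe⟩ α hα _
    have h3 := h V e _ _ hV he hee (haut hV hW hWW) (by rw [map_add, hW0, add_zero]) α
      (inAlbKer_iff.2 hα)
    have h4 : C.comp (dg C V + W) (C.comp e (dg C V - W)) = e - W := by
      rw [comp_sub, comp_dg, heW, add_comp, dg_comp, comp_sub, hWe, hWW, sub_zero, add_zero]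
    rw [h4, ← C.act_comp, ← C.act_comp, sub_comp, comp_sub, hee, hWe, heW, sub_zero, C.act_sub,
      eq_comm, sub_eq_self] at h3
    exact h3
  tfae_have 8 → 1 := by
    intro h
    refine bloch_of_homConj (homConj_of hI (fun {V} W => ∃ e : C.A (V.prod V), C.Deg 2 e ∧
      C.comp e e = e ∧ C.comp e W = W ∧ C.comp W e = 0) hidem ?_)
    intro V W hV hW hW0 hWW ⟨e, he, hee, heW, hWe⟩ α hα _
    have hinv : ∀ e : C.A (V.prod V), C.Deg 2 e → C.comp e e = e →
        IsAut C (dg C V - (2 : ℚ) • e) (dg C V - (2 : ℚ) • e) := by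
      intro e he hee
      have hd : dg C V - (2 : ℚ) • e ∈ C.gr (V.prod V) 2 :=
        Submodule.sub_mem _ (dg_mem2 hV) (Submodule.smul_mem _ _ he)
      have hs : C.comp (dg C V - (2 : ℚ) • e) (dg C V - (2 : ℚ) • e) = dg C V := by
        rw [comp_sub, comp_dg, comp_smul', sub_comp, dg_comp, smul_comp', hee, smul_sub, smul_smul]
        module
      exact ⟨hd, hd, hs, hs⟩
    have h3 := h V _ _ hV (hinv e he hee)
      (hinv (e + W) (Submodule.add_mem _ he hW)
        (by rw [comp_add, add_comp, add_comp, hee, hWe, heW, hWW, add_zero, add_zero]))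
      (by rw [smul_add, map_sub, map_sub, map_add]
          have : H.cl ((2 : ℚ) • W) = 0 := by
            rw [two_smul, map_add, hW0, add_zero]
          rw [this, add_zero]) α (inAlbKer_iff.2 hα)
    have e1 : C.comp (dg C V - (2 : ℚ) • (e + W)) (dg C V - (2 : ℚ) • e) =
        dg C V - (2 : ℚ) • W := by
      rw [comp_sub, comp_dg, comp_smul', sub_comp, dg_comp, smul_comp', add_comp, hee, hWe]
      module
    have e2 : C.comp (dg C V - (2 : ℚ) • e) (dg C V - (2 : ℚ) • (e + W)) =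
        dg C V + (2 : ℚ) • W := by
      rw [sub_comp, dg_comp, smul_comp', comp_sub, comp_dg, comp_smul', comp_add, hee, heW]
      module
    rw [← C.act_comp, ← C.act_comp, e1, e2, C.act_sub, C.act_add, act_smul'] at h3
    have h5 : (4 : ℚ) • C.act W α = 0 := by
      have h6 : α - (2 : ℚ) • C.act W α = α + (2 : ℚ) • C.act W α := by
        rw [act_dg] at h3
        exact h3
      have h7 : (4 : ℚ) • C.act W α = (α + (2 : ℚ) • C.act W α) - (α - (2 : ℚ) • C.act W α) := by
        module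
      rw [h7, h6, sub_self]
    exact (smul_eq_zero.1 h5).resolve_left four_ne_zero
  tfae_finish

end Pool.Agent.V1151.BC
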